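import Pool.Agent.Lib.TT3.Main

set_option autoImplicit false

namespace Pool.Agent.Results.MP_98d116_co.AllDimensions

open Filter Topology Pool.Agent.Lib.TT3

/-- In every dimension `d ≥ 1`, `F d n` is asymptotic to `n ^ (2 d / 3)`; `d = 2` is the grid. -/
theorem result (d : ℕ) (hd : 1 ≤ d) :
    Tendsto (fun n : ℕ => (F d n : ℝ) / (n : ℝ) ^ (2 * (d : ℝ) / 3)) atTop (𝓝 1) :=
  main d hd

end Pool.Agent.Results.MP_98d116_co.AllDimensions
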